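import Mathlib

/-! # The core inequality for joint decoding of `ψ_i = a e_i + τ g` -/

namespace Q198.Qrac

open Finset

section core

variable {n : ℕ} {f : (Fin n → Bool) → Fin n → Fin n → ℝ} {c : (Fin n → Bool) → Fin n → ℝ}
  {d : (Fin n → Bool) → ℝ}

/-- The real parts of the entries of a family of positive semidefinite matrices, indexed by the
strings `y`, on the span of `e_1, …, e_n, g`, with sum the identity. -/
structure Fam (f : (Fin n → Bool) → Fin n → Fin n → ℝ) (c : (Fin n → Bool) → Fin n → ℝ)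
    (d : (Fin n → Bool) → ℝ) : Prop where
  psd : ∀ y (v : Fin n → ℝ) (t : ℝ),
    0 ≤ ∑ i, ∑ j, v i * v j * f y i j + 2 * t * ∑ i, v i * c y i + t ^ 2 * d y
  sumf : ∀ i j, ∑ y, f y i j = if i = j then 1 else 0
  sumc : ∀ i, ∑ y, c y i = 0
  sumd : ∑ y, d y = 1

/-- the probability of the outcome `y` in the state `a e_i + τ g` -/
def sp (f : (Fin n → Bool) → Fin n → Fin n → ℝ) (c : (Fin n → Bool) → Fin n → ℝ)
    (d : (Fin n → Bool) → ℝ) (a τ : ℝ) (y : Fin n → Bool) (i : Fin n) : ℝ :=
  a ^ 2 * f y i i + 2 * a * τ * c y i + τ ^ 2 * d y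

lemma Fam.d_nonneg (h : Fam f c d) (y : Fin n → Bool) : 0 ≤ d y := by
  have := h.psd y (fun _ => 0) 1
  simpa using this

lemma Fam.ff_nonneg (h : Fam f c d) (y : Fin n → Bool) (v : Fin n → ℝ) :
    0 ≤ ∑ i, ∑ j, v i * v j * f y i j := by
  have := h.psd y v 0
  simpa using this

lemma Fam.fii_nonneg (h : Fam f c d) (y : Fin n → Bool) (i : Fin n) : 0 ≤ f y i i := by
  have := h.ff_nonneg y (Pi.single i 1)
  simpa [Pi.single_apply, Finset.sum_ite_eq'] using this

lemma Fam.fij (h : Fam f c d) (y : Fin n → Bool) (i j : Fin n) :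
    f y i j + f y j i ≤ f y i i + f y j j := by
  have := h.ff_nonneg y (fun k => (if k = i then 1 else 0) - (if k = j then 1 else 0))
  simp only [sub_mul, mul_sub, ite_mul, one_mul, zero_mul, mul_ite, mul_one, mul_zero,
    Finset.sum_sub_distrib, Finset.sum_ite_eq', Finset.mem_univ, if_true] at this
  simp at this
  linarith

/-- sums over the members of `y` -/
lemma Fam.block (h : Fam f c d) (y : Fin n → Bool) :
    ∑ i, ∑ j, (if y i then (1 : ℝ) else 0) * (if y j then 1 else 0) * f y i j ≤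
      ∑ j, ∑ i, (if y j then f y i i else 0) := by
  have h1 : ∑ i, ∑ j, (if y i then (1 : ℝ) else 0) * (if y j then 1 else 0) * f y i j =
      ∑ i, ∑ j, (if y i then (1 : ℝ) else 0) * (if y j then 1 else 0) * ((f y i j + f y j i) / 2) := by
    have h2 : ∑ i, ∑ j, (if y i then (1 : ℝ) else 0) * (if y j then 1 else 0) * f y i j =
        ∑ i, ∑ j, (if y i then (1 : ℝ) else 0) * (if y j then 1 else 0) * f y j i := by
      rw [Finset.sum_comm]
      refine Finset.sum_congr rfl fun i _ => Finset.sum_congr rfl fun j _ => ?_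
      ring
    have h3 : ∑ i, ∑ j, (if y i then (1 : ℝ) else 0) * (if y j then 1 else 0) * ((f y i j + f y j i) / 2) =
        (∑ i, ∑ j, (if y i then (1 : ℝ) else 0) * (if y j then 1 else 0) * f y i j +
        ∑ i, ∑ j, (if y i then (1 : ℝ) else 0) * (if y j then 1 else 0) * f y j i) / 2 := by
      rw [← Finset.sum_add_distrib, Finset.sum_div]
      refine Finset.sum_congr rfl fun i _ => ?_
      rw [← Finset.sum_add_distrib, Finset.sum_div]
      refine Finset.sum_congr rfl fun j _ => ?_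
      ring
    rw [h3, ← h2]; ring
  rw [h1]
  have h4 : ∑ i, ∑ j, (if y i then (1 : ℝ) else 0) * (if y j then 1 else 0) * ((f y i j + f y j i) / 2) ≤
      ∑ i, ∑ j, (if y i then (1 : ℝ) else 0) * (if y j then 1 else 0) * ((f y i i + f y j j) / 2) := by
    refine Finset.sum_le_sum fun i _ => Finset.sum_le_sum fun j _ => ?_
    refine mul_le_mul_of_nonneg_left ?_ (by split_ifs <;> norm_num)
    have := h.fij y i j
    linarith
  refine h4.trans ?_
  have h5 : ∑ i, ∑ j, (if y i then (1 : ℝ) else 0) * (if y j then 1 else 0) * ((f y i i + f y j j) / 2) =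
      ∑ j, ∑ i, (if y i then (1 : ℝ) else 0) * (if y j then 1 else 0) * f y i i := by
    have h6 : ∑ i, ∑ j, (if y i then (1 : ℝ) else 0) * (if y j then 1 else 0) * f y j j =
        ∑ i, ∑ j, (if y i then (1 : ℝ) else 0) * (if y j then 1 else 0) * f y i i := by
      rw [Finset.sum_comm]
      refine Finset.sum_congr rfl fun i _ => Finset.sum_congr rfl fun j _ => ?_
      ring
    have h7 : ∑ i, ∑ j, (if y i then (1 : ℝ) else 0) * (if y j then 1 else 0) * ((f y i i + f y j j) / 2) =
        (∑ i, ∑ j, (if y i then (1 : ℝ) else 0) * (if y j then 1 else 0) * f y i i +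
        ∑ i, ∑ j, (if y i then (1 : ℝ) else 0) * (if y j then 1 else 0) * f y j j) / 2 := by
      rw [← Finset.sum_add_distrib, Finset.sum_div]
      refine Finset.sum_congr rfl fun i _ => ?_
      rw [← Finset.sum_add_distrib, Finset.sum_div]
      refine Finset.sum_congr rfl fun j _ => ?_
      ring
    rw [h7, h6, Finset.sum_comm]; ring
  rw [h5]
  refine Finset.sum_le_sum fun j _ => Finset.sum_le_sum fun i _ => ?_
  have := h.fii_nonneg y i
  split_ifs <;> simp [this]

/-- (A) -/
lemma Fam.partA (h : Fam f c d) {a τ ε : ℝ} (haτ : a ^ 2 + τ ^ 2 = 1) (i : Fin n)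
    (h1 : ∑ y, (if y i then 0 else sp f c d a τ y i) ≤ ε) :
    1 - ε ≤ a ^ 2 * ∑ y, (if y i then f y i i else 0) + 2 * a * τ * ∑ y, (if y i then c y i else 0) +
      τ ^ 2 * ∑ y, (if y i then d y else 0) := by
  have h2 : ∑ y, sp f c d a τ y i = 1 := by
    simp only [sp, Finset.sum_add_distrib, ← Finset.mul_sum]
    rw [h.sumf, h.sumc, h.sumd, if_pos rfl]
    linarith
  have h3 : ∑ y, sp f c d a τ y i = ∑ y, (if y i then 0 else sp f c d a τ y i) +
      (a ^ 2 * ∑ y, (if y i then f y i i else 0) + 2 * a * τ * ∑ y, (if y i then c y i else 0) +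
      τ ^ 2 * ∑ y, (if y i then d y else 0)) := by
    simp only [Finset.mul_sum, ← Finset.sum_add_distrib]
    refine Finset.sum_congr rfl fun y _ => ?_
    split_ifs <;> simp [sp]
  linarith

/-- (B) -/
lemma Fam.partB (h : Fam f c d) {a τ ε : ℝ} (ha : 0 ≤ a) (hτ : 0 ≤ τ) (hn : 2 ≤ n) (i : Fin n)
    (h2 : ∀ j, j ≠ i → ∑ y, (if y i then sp f c d a τ y j else 0) ≤ ε) :
    a ^ 2 * ∑ y, (if y i then ∑ j, (if j = i then 0 else f y j j) else 0) +
      ((n : ℝ) - 1) * τ ^ 2 * ∑ y, (if y i then d y else 0) ≤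
      ((n : ℝ) - 1) * ε + 2 * a * τ * Real.sqrt ((n : ℝ) - 1) := by
  have hn1 : (1 : ℝ) ≤ (n : ℝ) - 1 := by
    have : (2 : ℝ) ≤ n := by exact_mod_cast hn
    linarith
  set r := Real.sqrt ((n : ℝ) - 1) with hr
  have hr2 : r ^ 2 = (n : ℝ) - 1 := Real.sq_sqrt (by linarith)
  have hr0 : 0 < r := Real.sqrt_pos.2 (by linarith)
  set v : Fin n → ℝ := fun j => if j = i then 0 else 1 with hv
  have hcard : ∑ j, v j = (n : ℝ) - 1 := by
    have : ∑ j, v j = ∑ j : Fin n, (1 - (if j = i then (1 : ℝ) else 0)) := by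
      refine Finset.sum_congr rfl fun j _ => ?_
      simp only [hv]; split_ifs <;> simp
    rw [this, Finset.sum_sub_distrib]; simp
  have hvv : ∀ j, v j * v j = v j := by
    intro j; simp only [hv]; split_ifs <;> simp
  -- sum of the hypotheses
  have hs : ∑ j, v j * ∑ y, (if y i then sp f c d a τ y j else 0) ≤ ((n : ℝ) - 1) * ε := by
    rw [← hcard, Finset.sum_mul]
    refine Finset.sum_le_sum fun j _ => ?_
    by_cases hj : j = i
    · simp [hv, hj]
    · simp only [hv, if_neg hj, one_mul]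
      exact h2 j hj
  have hs2 : ∑ j, v j * ∑ y, (if y i then sp f c d a τ y j else 0) =
      a ^ 2 * ∑ y, (if y i then ∑ j, (if j = i then 0 else f y j j) else 0) +
      ((n : ℝ) - 1) * τ ^ 2 * ∑ y, (if y i then d y else 0) +
      2 * a * τ * ∑ y, (if y i then ∑ j, v j * c y j else 0) := by
    simp only [Finset.mul_sum]
    rw [Finset.sum_comm, ← Finset.sum_add_distrib, ← Finset.sum_add_distrib]
    refine Finset.sum_congr rfl fun y _ => ?_
    split_ifs with hy
    · rw [← hcard]
      simp only [Finset.mul_sum, Finset.sum_mul, ← Finset.sum_add_distrib]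
      refine Finset.sum_congr rfl fun j _ => ?_
      simp only [sp, hv]
      split_ifs <;> ring
    · simp
  -- the cross term
  have hcross : -(2 * a * τ * r) ≤ 2 * a * τ * ∑ y, (if y i then ∑ j, v j * c y j else 0) := by
    have hB : ∀ y, 0 ≤ ∑ j, ∑ k, v j * v k * f y j k + r ^ 2 * d y := fun y =>
      add_nonneg (h.ff_nonneg y v) (mul_nonneg (by positivity) (h.d_nonneg y))
    have h3 : ∀ y, -(∑ j, ∑ k, v j * v k * f y j k + r ^ 2 * d y) ≤
        2 * r * (if y i then ∑ j, v j * c y j else 0) := by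
      intro y
      split_ifs
      · have := h.psd y v r
        linarith
      · have := hB y
        linarith
    have h4 : ∑ y, (∑ j, ∑ k, v j * v k * f y j k + r ^ 2 * d y) = 2 * r ^ 2 := by
      rw [Finset.sum_add_distrib, ← Finset.mul_sum, h.sumd, Finset.sum_comm]
      have : ∀ j, ∑ y, ∑ k, v j * v k * f y j k = v j := by
        intro j
        rw [Finset.sum_comm]
        simp only [← Finset.mul_sum, h.sumf]
        rw [Finset.sum_eq_single j]
        · rw [if_pos rfl, mul_one, hvv]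
        · intro k _ hk; rw [if_neg (Ne.symm hk), mul_zero]
        · intro hj; exact absurd (Finset.mem_univ j) hj
      simp only [this]
      rw [hcard, hr2]; ring
    have h5 := Finset.sum_le_sum (s := Finset.univ) (fun y (_ : y ∈ Finset.univ) => h3 y)
    rw [Finset.sum_neg_distrib, h4, ← Finset.mul_sum] at h5
    have h6 : -r ≤ ∑ y, (if y i then ∑ j, v j * c y j else 0) := by
      have : 2 * r * (-r) ≤ 2 * r * ∑ y, (if y i then ∑ j, v j * c y j else 0) := by
        calc 2 * r * (-r) = -(2 * r ^ 2) := by ring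
          _ ≤ _ := h5
      exact le_of_mul_le_mul_left this (by positivity)
    have h7 : 0 ≤ 2 * a * τ := by positivity
    nlinarith
  rw [hs2] at hs
  linarith

/-- (C) -/
lemma Fam.partC (h : Fam f c d) {μ : ℝ} (hμ : 0 < μ) :
    ∑ i, ∑ y, (if y i then c y i else 0) ≤
      (1 / (2 * μ)) * ∑ i, (∑ y, (if y i then f y i i else 0) +
        ∑ y, (if y i then ∑ j, (if j = i then 0 else f y j j) else 0)) + μ / 2 := by
  have h1 : ∀ y, ∑ i, (if y i then c y i else 0) ≤
      (1 / (2 * μ)) * (∑ j, ∑ i, (if y j then f y i i else 0)) + μ / 2 * d y := by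
    intro y
    have h2 := h.psd y (fun i => if y i then 1 else 0) (-μ)
    have h3 := h.block y
    have h4 : ∑ i, (if y i then (1 : ℝ) else 0) * c y i = ∑ i, (if y i then c y i else 0) := by
      refine Finset.sum_congr rfl fun i _ => ?_
      split_ifs <;> simp
    simp only [h4] at h2
    have h5 : 2 * μ * ∑ i, (if y i then c y i else 0) ≤
        (∑ j, ∑ i, (if y j then f y i i else 0)) + μ ^ 2 * d y := by linarith
    have h6 : (1 / (2 * μ)) * (∑ j, ∑ i, (if y j then f y i i else 0)) + μ / 2 * d y =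
        ((∑ j, ∑ i, (if y j then f y i i else 0)) + μ ^ 2 * d y) / (2 * μ) := by
      field_simp
    rw [h6, le_div_iff₀ (by positivity)]
    linarith
  rw [Finset.sum_comm]
  refine (Finset.sum_le_sum fun y _ => h1 y).trans (le_of_eq ?_)
  rw [Finset.sum_add_distrib, ← Finset.mul_sum, ← Finset.mul_sum, h.sumd, mul_one, Finset.sum_comm]
  congr 2
  refine Finset.sum_congr rfl fun i _ => ?_
  rw [← Finset.sum_add_distrib]
  refine Finset.sum_congr rfl fun y _ => ?_
  split_ifs
  · rw [← Finset.sum_erase_add _ _ (Finset.mem_univ i), add_comm,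
      ← Finset.sum_erase_add (f := fun j => if j = i then 0 else f y j j) _ (Finset.mem_univ i)]
    simp only [if_true, add_zero]
    congr 1
    refine Finset.sum_congr rfl fun j hj => ?_
    rw [if_neg (Finset.ne_of_mem_erase hj)]
  · simp

/-- The core inequality. -/
theorem Fam.core (h : Fam f c d) {a τ ε η : ℝ} (ha : 0 < a) (hτ : 0 < τ)
    (haτ : a ^ 2 + τ ^ 2 = 1) (hη : 0 < η) (hn : 2 ≤ n)
    (h1 : ∀ i, ∑ y, (if y i then 0 else sp f c d a τ y i) ≤ ε)
    (h2 : ∀ i j, j ≠ i → ∑ y, (if y i then sp f c d a τ y j else 0) ≤ ε) :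
    τ ^ 2 - ε - (ε + 2 * a * τ / Real.sqrt ((n : ℝ) - 1)) ≤
      (a * τ / η) * (1 / n + (ε + 2 * a * τ / Real.sqrt ((n : ℝ) - 1)) / a ^ 2) + a * τ * η := by
  have hn2 : (2 : ℝ) ≤ n := by exact_mod_cast hn
  have hn1 : (1 : ℝ) ≤ (n : ℝ) - 1 := by linarith
  set r := Real.sqrt ((n : ℝ) - 1) with hr
  have hr2 : r ^ 2 = (n : ℝ) - 1 := Real.sq_sqrt (by linarith)
  have hr0 : 0 < r := Real.sqrt_pos.2 (by linarith)
  set ε2 := ε + 2 * a * τ / r with hε2
  have e2 : ((n : ℝ) - 1) * ε + 2 * a * τ * r = ((n : ℝ) - 1) * ε2 := by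
    rw [hε2, ← hr2]; field_simp
  have hSD : ∀ i, ∑ y, (if y i then f y i i else 0) ≤ 1 := by
    intro i
    calc ∑ y, (if y i then f y i i else 0) ≤ ∑ y, f y i i := by
          refine Finset.sum_le_sum fun y _ => ?_
          have := h.fii_nonneg y i
          split_ifs <;> simp [this]
      _ = 1 := by rw [h.sumf, if_pos rfl]
  have hW : ∀ i, 0 ≤ ∑ y, (if y i then d y else 0) := by
    intro i
    refine Finset.sum_nonneg fun y _ => ?_
    have := h.d_nonneg y
    split_ifs <;> simp [this]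
  have hO : ∀ i, 0 ≤ ∑ y, (if y i then ∑ j, (if j = i then 0 else f y j j) else 0) := by
    intro i
    refine Finset.sum_nonneg fun y _ => ?_
    split_ifs
    · refine Finset.sum_nonneg fun j _ => ?_
      have := h.fii_nonneg y j
      split_ifs <;> simp [this]
    · exact le_rfl
  have hB := fun i => h.partB ha.le hτ.le hn i (h2 i)
  rw [← hr, e2] at hB
  have hWb : ∀ i, τ ^ 2 * ∑ y, (if y i then d y else 0) ≤ ε2 := by
    intro i
    have h3 := hB i
    have h4 : 0 ≤ a ^ 2 * ∑ y, (if y i then ∑ j, (if j = i then 0 else f y j j) else 0) :=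
      mul_nonneg (by positivity) (hO i)
    have h5 : ((n : ℝ) - 1) * (τ ^ 2 * ∑ y, (if y i then d y else 0)) ≤ ((n : ℝ) - 1) * ε2 := by
      linarith
    exact le_of_mul_le_mul_left h5 (by linarith)
  have hε20 : 0 ≤ ε2 := by
    have i : Fin n := ⟨0, by omega⟩
    exact le_trans (mul_nonneg (by positivity) (hW i)) (hWb i)
  have hOb : ∀ i, ∑ y, (if y i then ∑ j, (if j = i then 0 else f y j j) else 0) ≤
      (n : ℝ) * (ε2 / a ^ 2) := by
    intro i
    have h3 := hB i
    have h4 : 0 ≤ ((n : ℝ) - 1) * τ ^ 2 * ∑ y, (if y i then d y else 0) :=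
      mul_nonneg (by positivity) (hW i)
    have h5 : a ^ 2 * ∑ y, (if y i then ∑ j, (if j = i then 0 else f y j j) else 0) ≤
        (n : ℝ) * ε2 := by
      have : ((n : ℝ) - 1) * ε2 ≤ n * ε2 := by nlinarith
      linarith
    rw [mul_div_assoc', le_div_iff₀ (by positivity), mul_comm]
    exact h5
  have hA := fun i => h.partA haτ i (h1 i)
  have hsum := Finset.sum_le_sum (s := Finset.univ) (fun i (_ : i ∈ Finset.univ) => hA i)
  simp only [Finset.sum_add_distrib, ← Finset.mul_sum] at hsum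
  have hC := h.partC (μ := n * η) (by positivity)
  have s1 : ∑ i, ∑ y : Fin n → Bool, (if y i then f y i i else 0) ≤ (n : ℝ) := by
    calc _ ≤ ∑ i : Fin n, (1 : ℝ) := Finset.sum_le_sum fun i _ => hSD i
      _ = n := by simp
  have s2 : τ ^ 2 * ∑ i, ∑ y, (if y i then d y else 0) ≤ n * ε2 := by
    rw [Finset.mul_sum]
    calc _ ≤ ∑ i : Fin n, ε2 := Finset.sum_le_sum fun i _ => hWb i
      _ = n * ε2 := by simp
  have s3 : ∑ i, (∑ y, (if y i then f y i i else 0) +
        ∑ y, (if y i then ∑ j, (if j = i then 0 else f y j j) else 0)) ≤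
        n * (1 + n * (ε2 / a ^ 2)) := by
    calc _ ≤ ∑ i : Fin n, (1 + n * (ε2 / a ^ 2)) :=
          Finset.sum_le_sum fun i _ => add_le_add (hSD i) (hOb i)
      _ = n * (1 + n * (ε2 / a ^ 2)) := by simp; ring
  have s4 : ∑ i : Fin n, (1 - ε) = n * (1 - ε) := by simp; ring
  rw [s4] at hsum
  have s5 : ∑ i, ∑ y, (if y i then c y i else 0) ≤
      (1 / (2 * (n * η))) * (n * (1 + n * (ε2 / a ^ 2))) + n * η / 2 :=
    hC.trans (by
      have := mul_le_mul_of_nonneg_left s3 (show (0 : ℝ) ≤ 1 / (2 * (n * η)) by positivity)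
      linarith)
  have s6 : 2 * a * τ * ∑ i, ∑ y, (if y i then c y i else 0) ≤
      2 * a * τ * ((1 / (2 * (n * η))) * (n * (1 + n * (ε2 / a ^ 2))) + n * η / 2) :=
    mul_le_mul_of_nonneg_left s5 (by positivity)
  have s7 : a ^ 2 * ∑ i, ∑ y, (if y i then f y i i else 0) ≤ a ^ 2 * n :=
    mul_le_mul_of_nonneg_left s1 (by positivity)
  have s8 : 2 * a * τ * ((1 / (2 * (n * η))) * (n * (1 + n * (ε2 / a ^ 2))) + n * η / 2) =
      n * ((a * τ / η) * (1 / n + ε2 / a ^ 2) + a * τ * η) := by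
    have hn0 : (n : ℝ) ≠ 0 := by positivity
    field_simp
  have s9 : (n : ℝ) * (τ ^ 2 - ε - ε2) ≤
      n * ((a * τ / η) * (1 / n + ε2 / a ^ 2) + a * τ * η) := by
    rw [← s8]
    have : (n : ℝ) * (τ ^ 2 - ε - ε2) = n * (1 - ε) - a ^ 2 * n - n * ε2 := by
      have : τ ^ 2 = 1 - a ^ 2 := by linarith
      rw [this]; ring
    rw [this]
    linarith
  exact le_of_mul_le_mul_left s9 (by positivity)

end core

end Q198.Qrac
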