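import Mathlib

/-! # Quantum random access codes: definitions for MP_49fc99_mp -/

namespace Q198.Qrac

open Matrix
open scoped ComplexOrder

/-- Complex matrices on `m` qubits: rows and columns are indexed by the `2 ^ m` bit strings of
length `m` (the computational basis of `ℂ^(2^m)`). -/
abbrev QMat (m : ℕ) := Matrix (Fin m → Bool) (Fin m → Bool) ℂ

/-- An `m`-qubit mixed state: positive semidefinite with trace one. -/
def IsState {m : ℕ} (ρ : QMat m) : Prop := ρ.PosSemidef ∧ ρ.trace = 1

/-- A POVM with outcome set `S`. -/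
def IsPOVM {m : ℕ} {S : Type} [Fintype S] (Q : S → QMat m) : Prop :=
  (∀ s, (Q s).PosSemidef) ∧ ∑ s, Q s = 1

/-- The probability `Tr (Q ρ)` of the outcome with operator `Q` in the state `ρ`. -/
noncomputable def born {m : ℕ} (Q ρ : QMat m) : ℝ := (Q * ρ).trace.re

/-- `x ↦ ρ x` is an `(n, m, p)`-QRAC. -/
def IsQRAC (n m : ℕ) (p : ℝ) (ρ : (Fin n → Bool) → QMat m) : Prop :=
  (∀ x, IsState (ρ x)) ∧
    ∀ i : Fin n, ∃ M : Bool → QMat m, IsPOVM M ∧ ∀ x b, x i = b → p ≤ born (M b) (ρ x)

/-- The probability that the outcome `y` of the measurement `Q` in the state `ρ` satisfies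
`y i ≠ x i`. -/
noncomputable def bitError {n m : ℕ} (Q : (Fin n → Bool) → QMat m) (ρ : QMat m)
    (x : Fin n → Bool) (i : Fin n) : ℝ :=
  ∑ y, if y i = x i then 0 else born (Q y) ρ

end Q198.Qrac
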