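import Pool.Agent.Q198.Qrac.Core
import Pool.Agent.Q198.Qrac.Defs

/-! # The code of the counterexample -/

namespace Q198.Qrac

open Matrix Finset
open scoped ComplexOrder

variable {n : ℕ}

/-- the basis state of the string `x` -/
def eb (x : Fin n → Bool) : Fin (n + 1) → Bool := Fin.cons false x

/-- the extra basis state -/
def gb (n : ℕ) : Fin (n + 1) → Bool := fun _ => true

lemma eb_inj {x x' : Fin n → Bool} : eb x = eb x' ↔ x = x' := by
  unfold eb; exact Fin.cons_right_injective (α := fun _ => Bool) false |>.eq_iff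

lemma eb_ne_gb (x : Fin n → Bool) : eb x ≠ gb n := by
  intro h
  have := congrFun h 0
  simp [eb, gb] at this

/-- the string with a single one -/
def oneHot (i : Fin n) : Fin n → Bool := fun j => decide (j = i)

lemma oneHot_self (i : Fin n) : oneHot i i = true := by simp [oneHot]

lemma oneHot_ne {i j : Fin n} (h : j ≠ i) : oneHot i j = false := by simp [oneHot, h]

lemma oneHot_inj {i j : Fin n} : oneHot i = oneHot j ↔ i = j := by
  constructor
  · intro h
    have := congrFun h i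
    rw [oneHot_self] at this
    by_contra hij
    rw [oneHot_ne hij] at this
    exact absurd this (by simp)
  · rintro rfl; rfl

open Classical in
/-- amplitude on the basis state of the string -/
noncomputable def al (a : ℝ) (x : Fin n → Bool) : ℝ := if x ∈ Set.range (oneHot (n := n)) then a else 1

open Classical in
/-- amplitude on the extra basis state -/
noncomputable def be (τ : ℝ) (x : Fin n → Bool) : ℝ := if x ∈ Set.range (oneHot (n := n)) then τ else 0

/-- the state vector of the string `x` -/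
noncomputable def vec (a τ : ℝ) (x : Fin n → Bool) : (Fin (n + 1) → Bool) → ℂ :=
  (al a x : ℂ) • Pi.single (eb x) 1 + (be τ x : ℂ) • Pi.single (gb n) 1

/-- the state of the string `x` -/
noncomputable def st (a τ : ℝ) (x : Fin n → Bool) : QMat (n + 1) :=
  vecMulVec (vec a τ x) (star (vec a τ x))

lemma star_single (z : Fin (n + 1) → Bool) :
    star (Pi.single z (1 : ℂ)) = (Pi.single z 1 : (Fin (n + 1) → Bool) → ℂ) := by
  rw [Pi.star_single, star_one]

lemma star_vec (a τ : ℝ) (x : Fin n → Bool) : star (vec a τ x) = vec a τ x := by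
  unfold vec
  rw [star_add, star_smul, star_smul, star_single, star_single]
  simp

lemma vec_dot (a τ : ℝ) (x : Fin n → Bool) (u : (Fin (n + 1) → Bool) → ℂ) :
    vec a τ x ⬝ᵥ u = al a x * u (eb x) + be τ x * u (gb n) := by
  unfold vec
  rw [add_dotProduct, smul_dotProduct, smul_dotProduct, single_one_dotProduct,
    single_one_dotProduct]
  simp

lemma vec_dot_vec (a τ : ℝ) (x x' : Fin n → Bool) :
    vec a τ x ⬝ᵥ vec a τ x' = ((if x = x' then al a x * al a x' else 0) + be τ x * be τ x' : ℝ) := by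
  rw [vec_dot]
  have h1 : vec a τ x' (eb x) = if x = x' then (al a x' : ℂ) else 0 := by
    unfold vec
    simp only [Pi.add_apply, Pi.smul_apply, smul_eq_mul, Pi.single_apply, eb_inj]
    rw [if_neg (eb_ne_gb x)]
    split_ifs <;> simp
  have h2 : vec a τ x' (gb n) = (be τ x' : ℂ) := by
    unfold vec
    simp only [Pi.add_apply, Pi.smul_apply, smul_eq_mul, Pi.single_apply]
    rw [if_neg (eb_ne_gb x').symm]
    simp
  rw [h1, h2]
  split_ifs <;> push_cast <;> ring

lemma vec_norm {a τ : ℝ} (h : a ^ 2 + τ ^ 2 = 1) (x : Fin n → Bool) :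
    vec a τ x ⬝ᵥ vec a τ x = 1 := by
  rw [vec_dot_vec, if_pos rfl]
  have : al a x * al a x + be τ x * be τ x = 1 := by
    unfold al be
    split_ifs
    · rw [← h]; ring
    · simp
  rw [this]; simp

lemma st_mul (a τ : ℝ) (x x' : Fin n → Bool) :
    st a τ x * st a τ x' = (vec a τ x ⬝ᵥ vec a τ x') • vecMulVec (vec a τ x) (star (vec a τ x')) := by
  unfold st
  rw [vecMulVec_mul_vecMulVec, star_vec, star_vec, vecMulVec_smul]

lemma trace_st_mul (a τ : ℝ) (x x' : Fin n → Bool) :
    (st a τ x * st a τ x').trace = (vec a τ x ⬝ᵥ vec a τ x') ^ 2 := by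
  rw [st_mul, trace_smul, trace_vecMulVec, star_vec, smul_eq_mul, sq]

lemma born_st (a τ : ℝ) (Q : QMat (n + 1)) (x : Fin n → Bool) :
    born Q (st a τ x) = (vec a τ x ⬝ᵥ (Q *ᵥ vec a τ x)).re := by
  unfold born st
  rw [mul_vecMulVec, trace_vecMulVec, star_vec, dotProduct_comm]

lemma st_isState {a τ : ℝ} (h : a ^ 2 + τ ^ 2 = 1) (x : Fin n → Bool) : IsState (st a τ x) := by
  refine ⟨posSemidef_vecMulVec_self_star _, ?_⟩
  unfold st
  rw [trace_vecMulVec, star_vec, vec_norm h]

lemma st_conjTranspose (a τ : ℝ) (x : Fin n → Bool) : (st a τ x)ᴴ = st a τ x := by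
  unfold st
  rw [conjTranspose_vecMulVec, star_star]

/-- the projection used to find the bit `i` -/
noncomputable def pr (a τ : ℝ) (i : Fin n) : QMat (n + 1) :=
  ∑ x : Fin n → Bool, if x i then st a τ x else 0

lemma be_mul {τ : ℝ} {i : Fin n} {x x' : Fin n → Bool} (hx : x i = true) (hx' : x' i = true)
    (hne : x ≠ x') : be τ x * be τ x' = 0 := by
  unfold be
  split_ifs with h1 h2
  · exfalso
    obtain ⟨j, rfl⟩ := h1
    obtain ⟨k, rfl⟩ := h2
    have hj : j = i := by
      by_contra h; rw [oneHot_ne (Ne.symm h)] at hx; exact absurd hx (by simp)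
    have hk : k = i := by
      by_contra h; rw [oneHot_ne (Ne.symm h)] at hx'; exact absurd hx' (by simp)
    exact hne (by rw [hj, hk])
  · simp
  · simp
  · simp

lemma st_mul_of_bit {a τ : ℝ} (h : a ^ 2 + τ ^ 2 = 1) {i : Fin n} {x x' : Fin n → Bool}
    (hx : x i = true) (hx' : x' i = true) :
    st a τ x * st a τ x' = if x = x' then st a τ x' else 0 := by
  split_ifs with hxx
  · subst hxx
    rw [st_mul, vec_norm h, one_smul]; rfl
  · rw [st_mul, vec_dot_vec, if_neg hxx, be_mul hx hx' hxx]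
    simp

lemma pr_mul_st {a τ : ℝ} (h : a ^ 2 + τ ^ 2 = 1) {i : Fin n} {x : Fin n → Bool}
    (hx : x i = true) : pr a τ i * st a τ x = st a τ x := by
  unfold pr
  rw [Finset.sum_mul, Finset.sum_eq_single x]
  · rw [if_pos hx, st_mul_of_bit h hx hx, if_pos rfl]
  · intro x' _ hne
    by_cases hx' : x' i = true
    · rw [if_pos hx', st_mul_of_bit h hx' hx, if_neg hne]
    · rw [if_neg hx', zero_mul]
  · intro hh; exact absurd (Finset.mem_univ x) hh

lemma pr_sq {a τ : ℝ} (h : a ^ 2 + τ ^ 2 = 1) (i : Fin n) : pr a τ i * pr a τ i = pr a τ i := by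
  conv_lhs => rw [show pr a τ i = ∑ x : Fin n → Bool, if x i then st a τ x else 0 from rfl]
  rw [show (∑ x : Fin n → Bool, if x i then st a τ x else 0) = pr a τ i from rfl]
  conv_lhs => rhs; unfold pr
  rw [Finset.mul_sum]
  unfold pr
  refine Finset.sum_congr rfl fun x _ => ?_
  split_ifs with hx
  · exact pr_mul_st h hx
  · simp

lemma pr_conjTranspose (a τ : ℝ) (i : Fin n) : (pr a τ i)ᴴ = pr a τ i := by
  unfold pr
  rw [conjTranspose_sum]
  refine Finset.sum_congr rfl fun x _ => ?_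
  split_ifs
  · exact st_conjTranspose a τ x
  · simp

/-- the measurement for the bit `i` -/
noncomputable def meas (a τ : ℝ) (i : Fin n) (b : Bool) : QMat (n + 1) :=
  if b then pr a τ i else 1 - pr a τ i

lemma meas_isPOVM {a τ : ℝ} (h : a ^ 2 + τ ^ 2 = 1) (i : Fin n) : IsPOVM (meas a τ i) := by
  constructor
  · intro b
    unfold meas
    split_ifs
    · rw [← pr_sq h i]
      nth_rewrite 1 [← pr_conjTranspose a τ i]
      exact posSemidef_conjTranspose_mul_self _
    · have e : (1 - pr a τ i) = (1 - pr a τ i)ᴴ * (1 - pr a τ i) := by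
        rw [conjTranspose_sub, conjTranspose_one, pr_conjTranspose, mul_sub, mul_one, sub_mul,
          one_mul, pr_sq h]
        simp
      rw [e]
      exact posSemidef_conjTranspose_mul_self _
  · simp [meas]

theorem isQRAC {a τ : ℝ} (h : a ^ 2 + τ ^ 2 = 1) : IsQRAC n (n + 1) (1 - τ ^ 4) (st (n := n) a τ) := by
  refine ⟨st_isState h, fun i => ⟨meas a τ i, meas_isPOVM h i, ?_⟩⟩
  have hτ4 : 0 ≤ τ ^ 4 := by positivity
  rintro x b rfl
  unfold meas
  split_ifs with hx
  · unfold born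
    rw [pr_mul_st h hx, (st_isState h x).2]
    simp; exact hτ4
  · unfold born
    rw [sub_mul, one_mul, trace_sub, (st_isState h x).2, Complex.sub_re, Complex.one_re]
    have hx' : x i = false := by simpa using hx
    have h1 : ((pr a τ i * st a τ x).trace).re = ∑ x' : Fin n → Bool,
        if x' i then (be τ x' * be τ x) ^ 2 else 0 := by
      unfold pr
      rw [Finset.sum_mul, trace_sum, Complex.re_sum]
      refine Finset.sum_congr rfl fun x' _ => ?_
      split_ifs with h2
      · have hne : x' ≠ x := by rintro rfl; rw [h2] at hx'; exact absurd hx' (by simp)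
        rw [trace_st_mul, vec_dot_vec, if_neg hne, zero_add, ← Complex.ofReal_pow,
          Complex.ofReal_re]
      · simp
    have h2 : ∑ x' : Fin n → Bool, (if x' i then (be τ x' * be τ x) ^ 2 else 0) ≤ τ ^ 4 := by
      rw [Finset.sum_eq_single (oneHot i)]
      · rw [if_pos (oneHot_self i)]
        unfold be
        rw [if_pos ⟨i, rfl⟩]
        split_ifs
        · exact le_of_eq (by ring)
        · simpa using hτ4
      · intro x' _ hne
        split_ifs with h3
        · have : be τ x' = 0 := by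
            unfold be
            rw [if_neg]
            rintro ⟨j, rfl⟩
            apply hne
            have : i = j := by
              by_contra hij
              rw [oneHot_ne hij] at h3
              exact absurd h3 (by simp)
            rw [this]
          rw [this]; simp
        · rfl
      · intro hh; exact absurd (Finset.mem_univ _) hh
    rw [h1]
    linarith

section joint

/-- real combinations of the basis states -/
noncomputable def wv (v : Fin n → ℝ) (t : ℝ) : (Fin (n + 1) → Bool) → ℂ :=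
  ∑ i, (v i : ℂ) • Pi.single (eb (oneHot i)) 1 + (t : ℂ) • Pi.single (gb n) 1

lemma wv_dot (v : Fin n → ℝ) (t : ℝ) (u : (Fin (n + 1) → Bool) → ℂ) :
    wv v t ⬝ᵥ u = ∑ i, v i * u (eb (oneHot i)) + t * u (gb n) := by
  unfold wv
  rw [add_dotProduct, smul_dotProduct, single_one_dotProduct, sum_dotProduct]
  simp

lemma dot_wv (v : Fin n → ℝ) (t : ℝ) (u : (Fin (n + 1) → Bool) → ℂ) :
    u ⬝ᵥ wv v t = ∑ i, v i * u (eb (oneHot i)) + t * u (gb n) := by
  rw [dotProduct_comm, wv_dot]

lemma star_wv (v : Fin n → ℝ) (t : ℝ) : star (wv v t) = wv v t := by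
  unfold wv
  rw [star_add, star_sum, star_smul, star_single]
  simp only [star_smul, star_single]
  simp

lemma mulVec_wv (Q : QMat (n + 1)) (v : Fin n → ℝ) (t : ℝ) (z : Fin (n + 1) → Bool) :
    (Q *ᵥ wv v t) z = ∑ i, v i * Q z (eb (oneHot i)) + t * Q z (gb n) := by
  rw [mulVec, dot_wv]

lemma quad_re {Q : QMat (n + 1)} (hQ : Q.IsHermitian) (v : Fin n → ℝ) (t : ℝ) :
    (wv v t ⬝ᵥ (Q *ᵥ wv v t)).re =
      ∑ i, ∑ j, v i * v j * (Q (eb (oneHot i)) (eb (oneHot j))).re +
        2 * t * ∑ i, v i * (Q (eb (oneHot i)) (gb n)).re + t ^ 2 * (Q (gb n) (gb n)).re := by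
  rw [wv_dot]
  simp only [mulVec_wv]
  have hsym : ∀ i : Fin n, (Q (gb n) (eb (oneHot i))).re = (Q (eb (oneHot i)) (gb n)).re := by
    intro i
    have := hQ.apply (gb n) (eb (oneHot i))
    rw [← this]
    simp
  simp only [Complex.add_re, Complex.re_sum, Complex.re_ofReal_mul, hsym]
  simp only [mul_add, Finset.sum_add_distrib, Finset.mul_sum]
  have e1 : ∑ i, v i * (t * (Q (eb (oneHot i)) (gb n)).re) +
      ∑ i, t * (v i * (Q (eb (oneHot i)) (gb n)).re) =
      ∑ i, 2 * t * (v i * (Q (eb (oneHot i)) (gb n)).re) := by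
    rw [← Finset.sum_add_distrib]
    refine Finset.sum_congr rfl fun i _ => ?_
    ring
  have e2 : ∑ i, ∑ j, v i * (v j * (Q (eb (oneHot i)) (eb (oneHot j))).re) =
      ∑ i, ∑ j, v i * v j * (Q (eb (oneHot i)) (eb (oneHot j))).re := by
    refine Finset.sum_congr rfl fun i _ => Finset.sum_congr rfl fun j _ => ?_
    ring
  rw [← e1, e2]
  ring

lemma vec_oneHot (a τ : ℝ) (i : Fin n) : vec a τ (oneHot i) = wv (Pi.single i a) τ := by
  unfold vec wv al be
  rw [if_pos ⟨i, rfl⟩, if_pos ⟨i, rfl⟩, Finset.sum_eq_single i]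
  · simp
  · intro j _ hj
    rw [Pi.single_eq_of_ne hj]; simp
  · intro hh; exact absurd (Finset.mem_univ _) hh

variable {Q : (Fin n → Bool) → QMat (n + 1)} (hQ : IsPOVM Q)

include hQ in
lemma fam : Fam (fun y i j => (Q y (eb (oneHot i)) (eb (oneHot j))).re)
    (fun y i => (Q y (eb (oneHot i)) (gb n)).re) (fun y => (Q y (gb n) (gb n)).re) where
  psd := by
    intro y v t
    rw [← quad_re (hQ.1 y).1 v t]
    have h1 := (hQ.1 y).re_dotProduct_nonneg (wv v t)
    rw [star_wv] at h1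
    exact h1
  sumf := by
    intro i j
    rw [← Complex.re_sum, ← Matrix.sum_apply, hQ.2, Matrix.one_apply]
    simp only [eb_inj, oneHot_inj]
    split_ifs <;> simp
  sumc := by
    intro i
    rw [← Complex.re_sum, ← Matrix.sum_apply, hQ.2, Matrix.one_apply, if_neg (eb_ne_gb _)]
    simp
  sumd := by
    rw [← Complex.re_sum, ← Matrix.sum_apply, hQ.2, Matrix.one_apply, if_pos rfl]
    simp

include hQ in
lemma born_oneHot (a τ : ℝ) (y : Fin n → Bool) (i : Fin n) :
    born (Q y) (st a τ (oneHot i)) = sp (fun y i j => (Q y (eb (oneHot i)) (eb (oneHot j))).re)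
    (fun y i => (Q y (eb (oneHot i)) (gb n)).re) (fun y => (Q y (gb n) (gb n)).re) a τ y i := by
  rw [born_st, vec_oneHot, quad_re (hQ.1 y).1]
  unfold sp
  simp only [Pi.single_apply, ite_mul, zero_mul, mul_ite, mul_zero, Finset.sum_ite_eq',
    Finset.mem_univ, if_true]
  ring

include hQ in
/-- The lower bound for the joint decoding. -/
theorem joint {a τ ε η : ℝ} (ha : 0 < a) (hτ : 0 < τ) (haτ : a ^ 2 + τ ^ 2 = 1) (hη : 0 < η)
    (hn : 2 ≤ n) (herr : ∀ x i, bitError Q (st a τ x) x i ≤ ε) :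
    τ ^ 2 - ε - (ε + 2 * a * τ / Real.sqrt ((n : ℝ) - 1)) ≤
      (a * τ / η) * (1 / n + (ε + 2 * a * τ / Real.sqrt ((n : ℝ) - 1)) / a ^ 2) + a * τ * η := by
  refine (fam hQ).core ha hτ haτ hη hn ?_ ?_
  · intro i
    refine le_trans (le_of_eq ?_) (herr (oneHot i) i)
    unfold bitError
    refine Finset.sum_congr rfl fun y _ => ?_
    rw [oneHot_self, born_oneHot hQ]
  · intro i j hij
    refine le_trans (le_of_eq ?_) (herr (oneHot j) i)
    unfold bitError
    refine Finset.sum_congr rfl fun y _ => ?_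
    rw [oneHot_ne hij.symm, born_oneHot hQ]
    cases hy : y i <;> simp

end joint

/-- The main theorem. -/
theorem main (K : ℝ) : ∃ (n m : ℕ) (p : ℝ) (ρ : (Fin n → Bool) → QMat m),
    1 ≤ n ∧ 1 ≤ m ∧ 1 / 2 < p ∧ p < 1 ∧ IsQRAC n m p ρ ∧
    ∀ Q : (Fin n → Bool) → QMat m, IsPOVM Q →
      ∃ x i, K * (1 - p) < bitError Q (ρ x) x i ∧ 2 * p * (1 - p) < bitError Q (ρ x) x i := by
  set L := max K 2 with hL
  have hL2 : 2 ≤ L := le_max_right _ _
  have hKL : K ≤ L := le_max_left _ _
  set τ : ℝ := 1 / (8 * (L + 2)) with hτdef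
  have hτ : 0 < τ := by positivity
  have hτL : (L + 2) * τ = 1 / 8 := by rw [hτdef]; field_simp
  have hτs : τ ≤ 1 / 32 := by nlinarith
  set a := Real.sqrt (1 - τ ^ 2) with ha
  have ha2 : a ^ 2 = 1 - τ ^ 2 := Real.sq_sqrt (by nlinarith)
  have ha0 : 0 < a := Real.sqrt_pos.2 (by nlinarith)
  have haτ : a ^ 2 + τ ^ 2 = 1 := by rw [ha2]; ring
  have ha1 : a ≤ 1 := by nlinarith
  have hahalf : 1 / 2 ≤ a ^ 2 := by rw [ha2]; nlinarith
  obtain ⟨k, hk⟩ := exists_nat_gt (4 / τ ^ 6 + 1 / τ ^ 4)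
  have hk6 : 4 / τ ^ 6 < k := lt_of_le_of_lt (by have : 0 < 1 / τ ^ 4 := by positivity
                                                 linarith) hk
  have hk4 : 1 / τ ^ 4 < k := lt_of_le_of_lt (by have : 0 < 4 / τ ^ 6 := by positivity
                                                 linarith) hk
  have hτ4 : 0 < τ ^ 4 := by positivity
  have hτ4s : τ ^ 4 ≤ 1 / 4 := by
    have : τ ^ 4 ≤ 1 ^ 3 * τ := by
      have h1 : τ ^ 3 ≤ 1 ^ 3 := pow_le_pow_left₀ hτ.le (by linarith) 3
      calc τ ^ 4 = τ ^ 3 * τ := by ring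
        _ ≤ 1 ^ 3 * τ := mul_le_mul_of_nonneg_right h1 hτ.le
    linarith
  refine ⟨k + 2, k + 2 + 1, 1 - τ ^ 4, st a τ, by omega, by omega, by linarith, by linarith,
    isQRAC haτ, fun Q hQ => ?_⟩
  by_contra hcon
  push Not at hcon
  have herr : ∀ x i, bitError Q (st a τ x) x i ≤ L * τ ^ 4 := by
    intro x i
    by_contra hlt
    push Not at hlt
    have h1 : K * (1 - (1 - τ ^ 4)) < bitError Q (st a τ x) x i := by
      have : K * (1 - (1 - τ ^ 4)) ≤ L * τ ^ 4 := by
        have := mul_le_mul_of_nonneg_right hKL hτ4.le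
        linarith
      linarith
    have h2 := hcon x i h1
    have h3 : 2 * (1 - τ ^ 4) * (1 - (1 - τ ^ 4)) ≤ L * τ ^ 4 := by nlinarith
    linarith
  have hj := joint hQ ha0 hτ haτ (η := τ ^ 2) (by positivity) (by omega) herr
  have hr : ((k + 2 : ℕ) : ℝ) - 1 = k + 1 := by push_cast; ring
  rw [hr] at hj
  set r := Real.sqrt ((k : ℝ) + 1) with hrdef
  have hrpos : 0 < r := Real.sqrt_pos.2 (by positivity)
  have hr3 : 2 / τ ^ 3 ≤ r := by
    apply Real.le_sqrt_of_sq_le
    have : (2 / τ ^ 3) ^ 2 = 4 / τ ^ 6 := by field_simp; ring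
    rw [this]; linarith
  have h1 : 2 * a * τ / r ≤ τ ^ 4 := by
    rw [div_le_iff₀ hrpos]
    have h2 : 2 * τ ≤ τ ^ 4 * r := by
      have := mul_le_mul_of_nonneg_left hr3 hτ4.le
      have e : τ ^ 4 * (2 / τ ^ 3) = 2 * τ := by field_simp
      linarith
    nlinarith
  have hr0 : 0 ≤ 2 * a * τ / r := by positivity
  set e2 := L * τ ^ 4 + 2 * a * τ / r with he2
  have he2b : e2 ≤ (L + 1) * τ ^ 4 := by rw [he2]; nlinarith
  have he20 : 0 ≤ e2 := by positivity
  have h2 : 1 / ((k + 2 : ℕ) : ℝ) ≤ τ ^ 4 := by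
    rw [div_le_iff₀ (by positivity)]
    have h3 : 1 < τ ^ 4 * k := by
      rw [div_lt_iff₀ hτ4] at hk4; linarith
    push_cast
    nlinarith
  have h3 : e2 / a ^ 2 ≤ 2 * (L + 1) * τ ^ 4 := by
    rw [div_le_iff₀ (by positivity)]
    nlinarith
  have h4 : a * τ / τ ^ 2 ≤ 1 / τ := by
    rw [div_le_div_iff₀ (by positivity) hτ]
    nlinarith
  have h5 : (a * τ / τ ^ 2) * (1 / ((k + 2 : ℕ) : ℝ) + e2 / a ^ 2) ≤
      (1 / τ) * (τ ^ 4 + 2 * (L + 1) * τ ^ 4) := by
    refine mul_le_mul h4 (add_le_add h2 h3) ?_ (by positivity)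
    positivity
  have h6 : (1 / τ) * (τ ^ 4 + 2 * (L + 1) * τ ^ 4) = (2 * L + 3) * τ ^ 3 := by
    field_simp; ring
  have h7 : a * τ * τ ^ 2 ≤ τ ^ 3 := by
    have : 0 < τ ^ 3 := by positivity
    nlinarith
  have h8 : τ ^ 2 ≤ (2 * L + 4) * τ ^ 3 + (2 * L + 1) * τ ^ 4 := by
    rw [h6] at h5
    linarith
  have h9 : τ ^ 2 * 1 ≤ τ ^ 2 * ((2 * L + 4) * τ + (2 * L + 1) * τ ^ 2) := by
    calc τ ^ 2 * 1 = τ ^ 2 := by ring
      _ ≤ _ := h8
      _ = _ := by ring
  have h10 := le_of_mul_le_mul_left h9 (by positivity)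
  have h11 : (2 * L + 4) * τ = 1 / 4 := by linarith
  have h12 : (2 * L + 1) * τ ^ 2 ≤ 1 / 4 * τ := by
    calc (2 * L + 1) * τ ^ 2 ≤ (2 * L + 4) * τ * τ := by nlinarith
      _ = 1 / 4 * τ := by rw [h11]
  linarith

end Q198.Qrac
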